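import Pool.Agent.RCM.Stmts

set_option autoImplicit false

namespace Pool.Agent.RCM.H80

open Set

universe u

variable {E : Type u} {K : Type}

theorem basic [Finite E] [Finite K] (h : MvbStmt.{u}) (M N : Matroid E) (κ : E → K) (s t : ℕ)
    (P : Set E) (X : Set K) (T T' : Set E) (hC : Col M N κ s) (hM : Mx M N κ t)
    (hT : St M N κ P X t T) (hR : Rc M N κ P X T T') :
    St M N κ P X t T' ∧ N.closure T' = N.closure T ∧ Rc M N κ P X T' T := by
  unfold Rc at *
  induction hR with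
  | refl => exact ⟨hT, rfl, Relation.ReflTransGen.refl⟩
  | tail hab hbc ih =>
    obtain ⟨h1, h2, h3⟩ := ih
    obtain ⟨a1, a2, a3⟩ := (h E K M N κ s t P X _ hC hM h1).2 _ hbc
    exact ⟨a1, a2.trans h2, Relation.ReflTransGen.head a3 h3⟩

theorem sta_sub (M N : Matroid E) (κ : E → K) (P : Set E) (X : Set K) (T : Set E) :
    Sta M N κ P X T ⊆ T := fun e he => he T Relation.ReflTransGen.refl

theorem un_card [Finite E] [Finite K] (M N : Matroid E) (κ : E → K) (t : ℕ)
    (P : Set E) (X : Set K) (T : Set E) (hT : St M N κ P X t T) :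
    (Un κ X T).ncard = (Xᶜ : Set K).ncard - t := by
  have e1 : Un κ X T = Xᶜ \ (κ '' T) := by
    ext c; simp [Un]
  have e2 : κ '' T ⊆ Xᶜ := by
    rintro _ ⟨e, he, rfl⟩
    exact hT.col e he
  rw [e1, Set.ncard_diff e2 (Set.toFinite _), Set.ncard_image_of_injOn hT.ri.inj, hT.card]

theorem rch (h : MvbStmt.{u}) : RchStmt.{u} := by
  intro E K _ _ M N κ s t P X T T' hC hM hT hR
  obtain ⟨h1, h2, h3⟩ := basic h M N κ s t P X T T' hC hM hT hR
  have hs : ∀ T'', Rc M N κ P X T' T'' ↔ Rc M N κ P X T T'' := fun T'' =>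
    ⟨fun a => Relation.ReflTransGen.trans hR a, fun a => Relation.ReflTransGen.trans h3 a⟩
  have hSta : Sta M N κ P X T' = Sta M N κ P X T := by
    ext e
    simp only [Sta, Set.mem_setOf_eq, hs]
  have hPl : Pl M N κ P X T' = Pl M N κ P X T := by
    ext e
    simp only [Pl, Set.mem_setOf_eq, hs]
  refine ⟨h1, h2, h3, hSta, hPl, ?_, ?_⟩
  · rw [Set.ncard_diff (sta_sub M N κ P X T') (Set.toFinite _),
      Set.ncard_diff (sta_sub M N κ P X T) (Set.toFinite _), hSta, h1.card, hT.card]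
  · rw [un_card M N κ t P X T' h1, un_card M N κ t P X T hT]

end Pool.Agent.RCM.H80
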